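import Pool.Agent.helper18.KU.Spec

set_option autoImplicit false

namespace Pool.Agent.KU

open Finset

noncomputable section

theorem EXS : EXS_stmt := by
  intro V _ S X X' w w' hX hw
  constructor
  · rintro ⟨h, φ, hS⟩
    refine ⟨h, φ, hS.mem, ?_, ?_, hS.dist, hS.ac⟩
    · intro v hv
      rw [hS.cX v hv, hX v hv]
    · intro u hu v hv huv
      rw [hS.cw u hu v hv huv, hw u hu v hv huv]
  · intro h φ τ hS
    refine ⟨hS.mem, hS.cX, hS.cw, ?_, ?_⟩
    · intro u hu v hv huv n hn
      apply hS.dist u hu v hv huv n
      rw [← hn]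
      ring
    · intro t
      have h1 := hS.ac (t - τ)
      have h2 : ptr h (fun v => φ v + τ) t = ptr h φ (t - τ) := by
        funext v
        unfold ptr
        have h3 : t - (φ v + τ) = t - τ - φ v := by ring
        simp only [h3]
      rw [h2]
      exact h1

end

end Pool.Agent.KU
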