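import Pool.Agent.helper18.KU.Spec

set_option autoImplicit false

namespace Pool.Agent.KU

open Finset

noncomputable section

theorem IN1_rem {V : Type} [DecidableEq V] (h : V → ZMod 3 → Option V) (a : V) (k1 : ZMod 3) (y : Option V)
    (hy : h a k1 = y) (u : V) (o : Option V) :
    (univ.filter fun k => (u, k) ∉ ({(a, k1)} : Finset (V × ZMod 3)) ∧ h u k = o).card + (if u = a ∧ o = y then 1 else 0) =
      (univ.filter fun k => h u k = o).card := by
  by_cases hc : u = a ∧ o = y
  · rw [if_pos hc]
    obtain ⟨rfl, rfl⟩ := hc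
    have h1 : (univ.filter fun k => (u, k) ∉ ({(u, k1)} : Finset (V × ZMod 3)) ∧ h u k = o) =
        (univ.filter fun k => h u k = o).erase k1 := by
      ext k
      simp only [Finset.mem_filter, Finset.mem_univ, true_and, Finset.mem_singleton, Finset.mem_erase, Prod.mk.injEq]
    rw [h1]
    exact Finset.card_erase_add_one (Finset.mem_filter.mpr ⟨Finset.mem_univ _, hy⟩)
  · rw [if_neg hc, add_zero]
    congr 1
    apply Finset.filter_congr
    intro k _
    constructor
    · exact fun h => h.2
    · intro h1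
      refine ⟨?_, h1⟩
      intro h2
      rw [Finset.mem_singleton, Prod.mk.injEq] at h2
      obtain ⟨rfl, rfl⟩ := h2
      exact hc ⟨rfl, h1.symm.trans hy⟩

theorem IN1_card3 (p : ZMod 3 → Prop) [DecidablePred p] :
    (univ.filter fun k => p k).card = (if p 0 then 1 else 0) + (if p 1 then 1 else 0) + (if p 2 then 1 else 0) := by
  rw [Finset.card_filter]
  exact Fin.sum_univ_three _

theorem IN1_three (k : ZMod 3) : k = 0 ∨ k = 1 ∨ k = 2 := by
  revert k
  decide

theorem IN1_aux (hGEN : GEN_stmt) (hDIS : DIS_stmt) (hINS : INS_stmt) (V : Type) [DecidableEq V] (S : Finset V)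
    (X : V → ℕ) (w : V → V → ℕ) (v a b c : V) (hv : v ∉ S) (hw : Sy w) (ha : a ∈ S) (hb : b ∈ S) (hc : c ∈ S)
    (hX : X v = 1)
    (hd : ∀ u ∈ S, w v u = (if u = a then 1 else 0) + (if u = b then 1 else 0) + (if u = c then 1 else 0))
    (h : V → ZMod 3 → Option V) (φ : V → ℝ) (hS : Static S X (addE w a b) h φ) (k1 : ZMod 3) (hk : h a k1 = some b) :
    St (insert v S) X w := by
  obtain ⟨s, hs1, hs2, hs3⟩ := hGEN (S.image φ) (φ a + (k1.val : ℝ) - 1) (φ a + (k1.val : ℝ)) (by linarith)
  have hkk : (((k1.val : ℕ) : ℤ) : ZMod 3) = k1 := by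
    rw [Int.cast_natCast]
    exact ZMod.natCast_zmod_val k1
  have hdis := hDIS s (φ a) 2 (k1.val : ℤ) 0 (by push_cast; linarith) (by push_cast; linarith)
  rw [hkk] at hdis
  let g : ZMod 3 → Option V := fun k => if k = 0 then some b else if k = 1 then none else some c
  have g0 : g 0 = some b := rfl
  have g1 : g 1 = none := rfl
  have g2 : g 2 = some c := rfl
  refine hINS V S X X (addE w a b) w h φ v {(a, k1)} g s hv hw hS ?_ ?_ ?_ ?_ ?_ ?_ ?_ ?_
  · intro r hr
    rw [Finset.mem_singleton.mp hr]
    exact ha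
  · intro k y hy
    rcases IN1_three k with rfl | rfl | rfl
    · rw [g0] at hy
      rw [← Option.some.inj hy]
      exact hb
    · rw [g1] at hy
      exact absurd hy (by simp)
    · rw [g2] at hy
      rw [← Option.some.inj hy]
      exact hc
  · intro u hu n
    exact hs3 (φ u) (Finset.mem_image_of_mem φ hu) n
  · intro t
    rcases IN1_three ((⌊t - s⌋ : ℤ) : ZMod 3) with h0 | h0 | h0
    · right
      intro r hr _
      rw [Finset.mem_singleton.mp hr, h0, g0]
      exact hk
    · left
      rw [h0, g1]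
    · right
      intro r hr hr2
      rw [Finset.mem_singleton.mp hr] at hr2
      exact absurd ⟨by rw [h0]; norm_num, hr2⟩ (hdis t)
  · intro u hu
    have h1 := IN1_rem h a k1 (some b) hk u none
    rw [hS.cX u hu, if_neg (by simp)] at h1
    exact h1
  · intro u hu z hz huz
    have h1 := IN1_rem h a k1 (some b) hk u (some z)
    have h2 := IN1_rem h a k1 (some b) hk z (some u)
    have h3 := hS.cw u hu z hz huz
    rw [← h1, ← h2] at h3
    unfold addE at h3
    simp only [Option.some.injEq] at h3
    by_cases c1 : u = a ∧ z = b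
    · rw [if_pos c1, if_neg (by rintro ⟨c2, c3⟩; exact huz (c1.1.trans c2.symm)), if_pos (Or.inl c1)] at h3
      omega
    · by_cases c2 : z = a ∧ u = b
      · rw [if_neg c1, if_pos c2, if_pos (Or.inr c2.symm)] at h3
        omega
      · rw [if_neg c1, if_neg c2, if_neg (by rintro (c3 | c3); exact c1 c3; exact c2 c3.symm)] at h3
        omega
  · rw [IN1_card3, g0, g1, g2, hX]
    simp
  · intro u hu
    rw [IN1_card3, g0, g1, g2, hd u hu]
    have h1 : (univ.filter fun k => (u, k) ∈ ({(a, k1)} : Finset (V × ZMod 3))).card = if u = a then 1 else 0 := by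
      by_cases h2 : u = a
      · rw [if_pos h2, h2, Finset.card_eq_one]
        refine ⟨k1, ?_⟩
        ext k
        simp
      · rw [if_neg h2, Finset.card_eq_zero]
        ext k
        simp [h2]
    rw [h1]
    simp only [Option.some.injEq, reduceCtorEq, if_false, eq_comm (a := b) (b := u), eq_comm (a := c) (b := u)]
    omega

theorem IN1 (hGEN : GEN_stmt) (hDIS : DIS_stmt) (hINS : INS_stmt) : IN1_stmt := by
  intro V _ S X w v a b c hv hw ha hb hc hab hX hd hSt
  obtain ⟨h, φ, hS⟩ := hSt
  have h1 := hS.cw a ha b hb hab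
  have h2 : addE w a b a b = w a b + 1 := by
    unfold addE
    rw [if_pos (Or.inl ⟨rfl, rfl⟩)]
  by_cases hk : ∃ k1, h a k1 = some b
  · obtain ⟨k1, hk1⟩ := hk
    exact IN1_aux hGEN hDIS hINS V S X w v a b c hv hw ha hb hc hX hd h φ hS k1 hk1
  · have h3 : (univ.filter fun k => h a k = some b).card = 0 := by
      rw [Finset.card_eq_zero, Finset.filter_eq_empty_iff]
      intro k _ hk'
      exact hk ⟨k, hk'⟩
    have h4 : 0 < (univ.filter fun k => h b k = some a).card := by omega
    obtain ⟨k1, hk1⟩ := Finset.card_pos.mp h4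
    have hsym : addE w b a = addE w a b := by
      funext u z
      unfold addE
      by_cases c1 : (u = a ∧ z = b) ∨ (u = b ∧ z = a)
      · rw [if_pos c1, if_pos c1.symm]
      · rw [if_neg c1, if_neg (fun c2 => c1 c2.symm)]
    refine IN1_aux hGEN hDIS hINS V S X w v b a c hv hw hb ha hc hX ?_ h φ ?_ k1 (Finset.mem_filter.mp hk1).2
    · intro u hu
      rw [hd u hu]
      omega
    · rw [hsym]
      exact hS

end

end Pool.Agent.KU
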