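import Pool.Agent.helper18.KU.Spec

set_option autoImplicit false

namespace Pool.Agent.KU

open Finset

noncomputable section

theorem PAR_len {V : Type} {T : SimpleGraph V} {x : V} (f : ∀ v, T.Walk v x) (hf : ∀ v, (f v).IsPath)
    (hu : ∀ v (q : T.Walk v x), q.IsPath → q = f v) (v : V) (hv : v ≠ x) :
    (f ((f v).snd)).length + 1 = (f v).length := by
  have h1 : (f v).tail = f ((f v).snd) := hu _ _ (hf v).tail
  rw [← h1, SimpleGraph.Walk.length_tail_add_one (SimpleGraph.Walk.not_nil_of_ne hv)]

theorem PAR : PAR_stmt := by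
  intro V _ _ T x hT
  choose f hf hf' using (hT.existsUnique_path · x)
  have hac : T.IsAcyclic := hT.isAcyclic
  refine ⟨fun v => (f v).snd, ?_, ?_, ?_⟩
  · intro v hv
    exact SimpleGraph.Walk.adj_snd (SimpleGraph.Walk.not_nil_of_ne hv)
  · intro u v huv
    by_cases hs : v ∈ (f u).support
    · left
      have h1 : v = (f u).snd := hac.eq_snd_of_adj_start (hf u) huv hs
      refine ⟨?_, h1.symm⟩
      rintro rfl
      have h2 : f u = SimpleGraph.Walk.nil := (hf' u SimpleGraph.Walk.nil SimpleGraph.Walk.IsPath.nil).symm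
      rw [h2] at hs
      simp at hs
      exact huv.ne hs.symm
    · right
      have h1 : SimpleGraph.Walk.cons huv.symm (f u) = f v :=
        hf' v _ ((SimpleGraph.Walk.cons_isPath_iff _ _).2 ⟨hf u, hs⟩)
      refine ⟨?_, ?_⟩
      · rintro rfl
        exact hs (SimpleGraph.Walk.end_mem_support _)
      · show (f v).snd = u
        rw [← h1]
        simp
  · intro u v hu hv huv hvu
    have h1 := PAR_len f hf hf' u hu
    have h2 := PAR_len f hf hf' v hv
    simp only at huv hvu
    rw [huv] at h1
    rw [hvu] at h2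
    omega

end

end Pool.Agent.KU
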