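import Pool.Agent.helper18.KU.Spec

set_option autoImplicit false

namespace Pool.Agent.KU

open Finset

noncomputable section

theorem S3_aux (hEIN : EIN_stmt) (hDEG : DEG_stmt) (hT3 : T3_stmt) (V : Type) [DecidableEq V] (X : V → ℕ)
    (w : V → V → ℕ) (v a b : V) (hva : v ≠ a) (hvb : v ≠ b) (hab : a ≠ b) (hC : Cone {v, a, b} X w)
    (hI : Irr {v, a, b} X w) (hX : X v = 1) (h2 : w v a = 2) (h1 : w v b = 1) : St {v, a, b} X w := by
  have hsy := hC.sy
  obtain ⟨-, -, -, -, e2, e3, -, -, -⟩ := hEIN V w hsy
  have hcard : ({v, a, b} : Finset V).card = 3 := Finset.card_eq_three.mpr ⟨v, a, b, hva, hvb, hab, rfl⟩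
  obtain ⟨d1, -, -, d4⟩ := hDEG V {v, a, b} X w hC hI (by omega)
  have hE := e3 v a b hva hvb hab
  have hsum : ∑ u ∈ ({v, a, b} : Finset V), (X u : ℤ) = X v + X a + X b := by
    rw [Finset.sum_insert (by simp [hva, hvb]), Finset.sum_insert (by simp [hab]), Finset.sum_singleton]
    ring
  have htot := hC.tot
  unfold f at htot
  rw [hcard, hE, hsum] at htot
  have hwab : w a b ≤ 2 := d4 a (by simp) b (by simp) hab
  have hXa : X a ≤ 2 := (d1 a (by simp)).2.2.1
  have hXb : X b ≤ 2 := (d1 b (by simp)).2.2.1
  have hXa1 : 1 ≤ X a := hC.root a (by simp)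
  have hXb1 : 1 ≤ X b := hC.root b (by simp)
  have hb : X b = 2 → X a = 1 := by
    intro hXb2
    have hsd : ({v, a, b} : Finset V) \ {b} = {v, a} := by
      ext u
      simp only [Finset.mem_sdiff, Finset.mem_insert, Finset.mem_singleton]
      constructor
      · rintro ⟨h | h | h, h'⟩
        · exact Or.inl h
        · exact Or.inr h
        · exact absurd h h'
      · rintro (h | h)
        · exact ⟨Or.inl h, by rw [h]; exact hvb⟩
        · exact ⟨Or.inr (Or.inl h), by rw [h]; exact hab⟩
    have hne : ({b} : Finset V) ≠ {v, a, b} := by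
      intro h
      have hv : v ∈ ({b} : Finset V) := by rw [h]; simp
      exact hvb (Finset.mem_singleton.mp hv)
    have hi := (hI {b} (by intro u hu; rw [Finset.mem_singleton.mp hu]; simp) (Finset.singleton_nonempty b) hne).2
    have hne2 : ({v, a} : Finset V) ≠ {v, a, b} := by
      intro h
      have hv : b ∈ ({v, a} : Finset V) := by rw [h]; simp
      rcases Finset.mem_insert.mp hv with h' | h'
      · exact hvb h'.symm
      · exact hab (Finset.mem_singleton.mp h').symm
    have hi2 := (hI {v, a} (by
      intro u hu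
      rcases Finset.mem_insert.mp hu with h' | h'
      · rw [h']; simp
      · rw [Finset.mem_singleton.mp h']; simp) ⟨v, by simp⟩ hne2).1
    rw [hsd] at hi
    have hfb : f X w {b} = 1 := by
      unfold f
      have hE1 : E w {b} = 0 := by
        unfold E
        simp [hsy.loop]
      rw [hE1, Finset.sum_singleton, Finset.card_singleton, hXb2]
      norm_num
    have hfva : f X w {v, a} = 3 - X a := by
      unfold f
      rw [e2 v a hva, Finset.sum_pair hva, Finset.card_pair hva, h2, hX]
      push_cast
      ring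
    rw [hfva] at hi2 hi
    by_contra hc
    apply hi
    refine ⟨hfb, ?_⟩
    omega
  apply hT3 V X w v a b hsy hva hvb hab h2 h1 ?_ hX ?_
  · by_contra hc
    by_cases h : X b = 2
    · have := hb h
      omega
    · omega
  · by_cases h : X b = 2
    · exact Or.inl ⟨hb h, h⟩
    · right
      constructor <;> omega

theorem S3 (hEIN : EIN_stmt) (hDEG : DEG_stmt) (hT3 : T3_stmt) : S3_stmt := by
  intro V _ S X w hC hI hcard
  obtain ⟨d1, d2, -, d4⟩ := hDEG V S X w hC hI (by omega)
  have hE5 := hC.v S (Finset.Subset.refl S) (by omega)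
  have hex : ∃ v ∈ S, X v + dg w S v ≤ 4 := by
    by_contra hc
    push Not at hc
    have h5 : ∑ v ∈ S, 5 ≤ ∑ v ∈ S, (X v + dg w S v) := Finset.sum_le_sum (fun v hv => hc v hv)
    rw [Finset.sum_const, hcard, d2] at h5
    simp at h5
    omega
  obtain ⟨v, hv, hv4⟩ := hex
  obtain ⟨-, p2, p3, p4, p5⟩ := d1 v hv
  have hX1 : 1 ≤ X v := hC.root v hv
  have hX : X v = 1 := by
    by_contra hc
    have : X v = 2 := by omega
    have := p4 this
    omega
  have hce : (S.erase v).card = 2 := by rw [Finset.card_erase_of_mem hv, hcard]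
  obtain ⟨a, b, hab, hS'⟩ := Finset.card_eq_two.mp hce
  have hS : S = {v, a, b} := by
    rw [← Finset.insert_erase hv, hS']
  have hva : v ≠ a := by
    intro h
    have : a ∈ S.erase v := by rw [hS']; simp
    exact (Finset.mem_erase.mp this).1 h.symm
  have hvb : v ≠ b := by
    intro h
    have : b ∈ S.erase v := by rw [hS']; simp
    exact (Finset.mem_erase.mp this).1 h.symm
  have hdg : w v a + w v b = 3 := by
    have h1 : dg w (S.erase v) v = w v a + w v b := by
      rw [hS']
      unfold dg
      rw [Finset.sum_pair hab]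
    omega
  subst hS
  have hwa : w v a ≤ 2 := d4 v (by simp) a (by simp) hva
  have hwb : w v b ≤ 2 := d4 v (by simp) b (by simp) hvb
  by_cases h : w v a = 2
  · exact S3_aux hEIN hDEG hT3 V X w v a b hva hvb hab hC hI hX h (by omega)
  · have hpc : ({v, a, b} : Finset V) = {v, b, a} := by rw [Finset.pair_comm a b]
    rw [hpc] at hC hI ⊢
    exact S3_aux hEIN hDEG hT3 V X w v b a hvb hva hab.symm hC hI hX (by omega) (by omega)

end

end Pool.Agent.KU
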